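import Pool.Agent.Y121.ZI.Stm
import Pool.Agent.Y274.ZI.Dual

set_option autoImplicit false
set_option linter.all false

/-! # Project ZI: operators and their classes -/

open scoped TensorProduct

universe u v w

namespace Pool.Agent.Y447.ZI

open Module Pool.Agent.Y133.Half Pool.Agent.Y121.ZI Pool.Agent.Y121.ZI.NCTheory
open Pool.Agent.Y274.ZI

variable {K : Type u} [Field K]

theorem clas [CharZero K] (T : NCTheory.{u, v, w} K) (Y : T.Obj) :
    ∃ c ∈ T.S T.one (rr Y), (∀ u : T.H Y →ₗ[K] T.H Y,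
      (ex u (LinearMap.id : T.H (T.op Y) →ₗ[K] T.H (T.op Y)) :
        T.H (rr Y) →ₗ[K] T.H (rr Y)) (c T.e) = 0 → u = 0) ∧
      ∀ w ∈ T.S T.one (rr Y), ∃ u ∈ T.S Y Y,
        (ex u (LinearMap.id : T.H (T.op Y) →ₗ[K] T.H (T.op Y)) :
          T.H (rr Y) →ₗ[K] T.H (rr Y)) (c T.e) = w T.e := by
  obtain ⟨D⟩ := exists_DD Y
  refine ⟨D.c₀, D.hc₀, fun u hu => ?_, fun w hw => ?_⟩
  · apply LinearMap.ext
    intro y
    obtain ⟨Λ, hΛ⟩ := exists_lin (T := T) (A := Y) (B := T.op Y)
      ((LinearMap.lsmul K (T.H Y)).flip.compr₂ (LinearMap.id : T.H Y →ₗ[K] T.H Y) |>.compl₂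
        (D.bb.flip y))
    have hΛ' : ∀ x ζ, Λ (kx x ζ) = D.bb ζ y • x := fun x ζ => by
      rw [hΛ]
      rfl
    have h1 := congrArg Λ hu
    change Λ (ex u (LinearMap.id : T.H (T.op Y) →ₗ[K] T.H (T.op Y)) (D.c₀ T.e)) = Λ 0 at h1
    rw [D.h1, map_sum, map_sum, map_zero] at h1
    have h2 : ∀ i, Λ (ex u (LinearMap.id : T.H (T.op Y) →ₗ[K] T.H (T.op Y))
        (kx (D.aa i) (D.α i))) = u (D.bb (D.α i) y • D.aa i) := fun i => by
      rw [ex_kx, hΛ', LinearMap.id_apply, map_smul]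
    rw [Finset.sum_congr rfl fun i _ => h2 i, ← map_sum, D.h3] at h1
    exact h1
  · -- the operator of a class
    obtain ⟨Ω, hΩ⟩ := exists_lin (T := T) (A := Y) (B := T.op Y)
      (V := T.H Y →ₗ[K] T.H Y)
      (LinearMap.mk₂ K (fun (x : T.H Y) (ξ : T.H (T.op Y)) => (D.bb ξ).smulRight x)
        (fun x x' ξ => by
          apply LinearMap.ext; intro y
          simp only [LinearMap.smulRight_apply, LinearMap.add_apply, smul_add])
        (fun c x ξ => by
          apply LinearMap.ext; intro y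
          simp only [LinearMap.smulRight_apply, LinearMap.smul_apply, smul_comm c])
        (fun x ξ ξ' => by
          apply LinearMap.ext; intro y
          simp only [LinearMap.smulRight_apply, LinearMap.add_apply, map_add, add_smul])
        (fun c x ξ => by
          apply LinearMap.ext; intro y
          simp only [LinearMap.smulRight_apply, LinearMap.smul_apply, map_smul, smul_assoc]))
    have hΩ' : ∀ (x : T.H Y) (ξ : T.H (T.op Y)) (y : T.H Y), Ω (kx x ξ) y = D.bb ξ y • x := by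
      intro x ξ y
      rw [hΩ]
      rfl
    obtain ⟨-, -, g, hg, -, hg2⟩ := exists_unit (T := T) Y
    obtain ⟨α, hα, -, -, hα1, -⟩ := exists_assoc (T := T) Y (T.op Y) Y
    obtain ⟨ρ, hρ, -, -, hρ1, -⟩ := exists_runit (T := T) Y
    refine ⟨ρ ∘ₗ ex (LinearMap.id : T.H Y →ₗ[K] T.H Y) D.d₀ ∘ₗ α ∘ₗ
      ex w (LinearMap.id : T.H Y →ₗ[K] T.H Y) ∘ₗ g,
      S_comp (S_comp (S_comp (S_comp hg (S_ex hw S_id)) hα) (S_ex S_id D.hd₀)) hρ, ?_⟩
    -- the composition is the operator of the class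
    have key1 : ∀ y : T.H Y, ∀ t : T.H (T.ten Y (T.op Y)),
        ρ (ex (LinearMap.id : T.H Y →ₗ[K] T.H Y) D.d₀ (α (kx t y))) = Ω t y := by
      intro y t
      let Φ : T.H (T.ten Y (T.op Y)) →ₗ[K] T.H (T.ten (T.ten Y (T.op Y)) Y) :=
        { toFun := fun t => kx t y
          map_add' := fun a b => kx_add_left a b y
          map_smul' := fun c a => kx_smul_left c a y }
      have h1 : ρ ∘ₗ ex (LinearMap.id : T.H Y →ₗ[K] T.H Y) D.d₀ ∘ₗ α ∘ₗ Φ = Ω.flip y := by
        apply kx_ext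
        intro x ξ
        change ρ (ex (LinearMap.id : T.H Y →ₗ[K] T.H Y) D.d₀ (α (kx (kx x ξ) y))) =
          Ω (kx x ξ) y
        rw [hα1, ex_kx, LinearMap.id_apply, D.h2, kx_smul_right, map_smul, hρ1, hΩ']
      exact congrArg (fun f => f t) h1
    have hu : ρ ∘ₗ ex (LinearMap.id : T.H Y →ₗ[K] T.H Y) D.d₀ ∘ₗ α ∘ₗ
        ex w (LinearMap.id : T.H Y →ₗ[K] T.H Y) ∘ₗ g = Ω (w T.e) := by
      apply LinearMap.ext
      intro y
      simp only [LinearMap.comp_apply]
      rw [hg2, ex_kx, LinearMap.id_apply]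
      exact key1 y (w T.e)
    rw [hu]
    -- the class of the operator
    have key2 : ∀ t : T.H (T.ten Y (T.op Y)),
        (ex (Ω t) (LinearMap.id : T.H (T.op Y) →ₗ[K] T.H (T.op Y)) :
          T.H (T.ten Y (T.op Y)) →ₗ[K] T.H (T.ten Y (T.op Y))) (D.c₀ T.e) = t := by
      intro t
      let Θ : T.H (T.ten Y (T.op Y)) →ₗ[K] T.H (T.ten Y (T.op Y)) :=
        { toFun := fun t => ex (Ω t) (LinearMap.id : T.H (T.op Y) →ₗ[K] T.H (T.op Y)) (D.c₀ T.e)
          map_add' := fun a b => by rw [map_add, ex_add_left, LinearMap.add_apply]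
          map_smul' := fun c a => by
            rw [map_smul, ex_smul_left, LinearMap.smul_apply, RingHom.id_apply] }
      have h1 : Θ = LinearMap.id := by
        apply kx_ext
        intro x ξ
        change ex (Ω (kx x ξ)) (LinearMap.id : T.H (T.op Y) →ₗ[K] T.H (T.op Y)) (D.c₀ T.e) =
          kx x ξ
        have h2 : ∀ i, ex (Ω (kx x ξ)) (LinearMap.id : T.H (T.op Y) →ₗ[K] T.H (T.op Y))
            (kx (D.aa i) (D.α i)) = kx x (D.bb ξ (D.aa i) • D.α i) := by
          intro i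
          rw [ex_kx, hΩ', LinearMap.id_apply, kx_smul_left, kx_smul_right]
        rw [D.h1, map_sum, Finset.sum_congr rfl fun i _ => h2 i]
        conv_rhs => rw [← D.h4 ξ]
        unfold kx
        rw [TensorProduct.tmul_sum, map_sum]
      exact congrArg (fun f => f t) h1
    exact key2 (w T.e)

end Pool.Agent.Y447.ZI
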