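import Mathlib
import Pool.Agent.Y121.ZI.Stm2

set_option autoImplicit false
set_option linter.all false

/-! # Project ZI: decomposition of stable spaces over a semisimple algebra of operators -/

open scoped TensorProduct

universe u v w

namespace Pool.Agent.Y447.ZI

open Module Pool.Agent.Y133.Half Pool.Agent.Y121.ZI Pool.Agent.Y121.ZI.NCTheory

theorem exists_idem {E : Type*} [Ring E] [IsSemisimpleRing E] (I : Ideal E) (hI : I ≠ ⊤) :
    ∃ g : E, g * g = g ∧ g ≠ 0 ∧ ∀ x : E, x * g ∈ I → x * g = 0 := by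
  obtain ⟨J, hJ⟩ := exists_isCompl I
  have h1 : (1 : E) ∈ I ⊔ J := by
    rw [hJ.sup_eq_top]
    exact Submodule.mem_top
  obtain ⟨i, hi, g, hg, hig⟩ := Submodule.mem_sup.1 h1
  have key : ∀ x : E, x ∈ I → x ∈ J → x = 0 := by
    intro x h2 h3
    have h4 : x ∈ I ⊓ J := ⟨h2, h3⟩
    rw [hJ.inf_eq_bot] at h4
    exact (Submodule.mem_bot E).1 h4
  refine ⟨g, ?_, ?_, ?_⟩
  · have h2 : g - g * g = g * i := by
      have : g * (i + g) = g := by rw [hig, mul_one]
      rw [mul_add] at this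
      rw [sub_eq_iff_eq_add]
      exact this.symm
    have h3 : g * i ∈ I := I.mul_mem_left g hi
    have h4 : g - g * g ∈ J := J.sub_mem hg (J.mul_mem_left g hg)
    have h5 := key (g - g * g) (by rw [h2]; exact h3) h4
    exact (sub_eq_zero.1 h5).symm
  · intro h2
    rw [h2, add_zero] at hig
    rw [hig] at hi
    exact hI ((Ideal.eq_top_iff_one I).2 hi)
  · intro x hx
    exact key (x * g) hx (J.mul_mem_left x hg)

variable {K : Type u} [Field K] {T : NCTheory.{u, v, w} K}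

/-- the algebra of the operators -/
def EE (P : T.Obj) : Subalgebra K (Module.End K (T.H P)) where
  carrier := {f | f ∈ T.S P P}
  mul_mem' := fun ha hb => S_comp hb ha
  one_mem' := S_id
  add_mem' := fun ha hb => (T.S P P).add_mem ha hb
  zero_mem' := (T.S P P).zero_mem
  algebraMap_mem' := fun c => by
    have h : algebraMap K (Module.End K (T.H P)) c = c • (LinearMap.id : T.H P →ₗ[K] T.H P) := by
      rw [Algebra.algebraMap_eq_smul_one]
      rfl
    change algebraMap K (Module.End K (T.H P)) c ∈ T.S P P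
    rw [h]
    exact Submodule.smul_mem _ c S_id

theorem par_comm {P : T.Obj} (x : EE P) :
    (T.par P : Module.End K (T.H P)) * (x : Module.End K (T.H P)) =
      (x : Module.End K (T.H P)) * (T.par P : Module.End K (T.H P)) :=
  (S_par x.2).symm

/-- the trace form -/
noncomputable def tt (P : T.Obj) : Tr K (EE P) where
  τ := (LinearMap.trace K (T.H P)) ∘ₗ (LinearMap.mulLeft K (T.par P : Module.End K (T.H P))) ∘ₗ
    (EE P).val.toLinearMap
  cyc x y := by
    change LinearMap.trace K _ ((T.par P : Module.End K (T.H P)) *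
        ((x : Module.End K (T.H P)) * (y : Module.End K (T.H P)))) =
      LinearMap.trace K _ ((T.par P : Module.End K (T.H P)) *
        ((y : Module.End K (T.H P)) * (x : Module.End K (T.H P))))
    rw [← mul_assoc, LinearMap.trace_mul_comm, ← mul_assoc, ← mul_assoc, par_comm y]
  nil x hx := by
    change LinearMap.trace K _ ((T.par P : Module.End K (T.H P)) *
      (x : Module.End K (T.H P))) = 0
    have h1 : IsNilpotent (x : Module.End K (T.H P)) := hx.map (EE P).val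
    have h2 : IsNilpotent ((T.par P : Module.End K (T.H P)) * (x : Module.End K (T.H P))) := by
      obtain ⟨n, hn⟩ := h1
      refine ⟨n, ?_⟩
      have hc : Commute (T.par P : Module.End K (T.H P)) (x : Module.End K (T.H P)) := par_comm x
      rw [hc.mul_pow, hn, mul_zero]
    exact (LinearMap.isNilpotent_trace_of_isNilpotent h2).eq_zero

theorem semis {P : T.Obj} (hP : Nn P P = ⊥) : IsSemisimpleRing (EE P) := by
  have h0 : ∀ a ∈ (tt P).rad, (RingHom.id (EE P)) a = 0 := by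
    intro a ha
    rw [Tr.mem_rad] at ha
    have h1 : (a : Module.End K (T.H P)) ∈ Nn P P := by
      refine ⟨a.2, fun v hv => ?_⟩
      have h2 := ha ⟨v, hv⟩
      rw [(tt P).cyc] at h2
      exact h2
    rw [hP] at h1
    exact Subtype.ext ((Submodule.mem_bot K).1 h1)
  exact RingHom.isSemisimpleRing_of_surjective (Ideal.Quotient.lift (tt P).rad _ h0)
    (fun x => ⟨Ideal.Quotient.mk _ x, Ideal.Quotient.lift_mk _ _ _⟩)

/-- the operators which map `m` to `M'` -/
def II {P : T.Obj} {M' : Submodule K (T.H P)} (hM' : Stab P M') (m : T.H P) : Ideal (EE P) where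
  carrier := {x | (x : Module.End K (T.H P)) m ∈ M'}
  zero_mem' := by
    change (0 : Module.End K (T.H P)) m ∈ M'
    rw [LinearMap.zero_apply]
    exact M'.zero_mem
  add_mem' := fun {a b} ha hb => by
    change ((a : Module.End K (T.H P)) + (b : Module.End K (T.H P))) m ∈ M'
    rw [LinearMap.add_apply]
    exact M'.add_mem ha hb
  smul_mem' := fun c x hx => by
    change ((c : Module.End K (T.H P)) * (x : Module.End K (T.H P))) m ∈ M'
    exact hM' (c : Module.End K (T.H P)) c.2 ((x : Module.End K (T.H P)) m) hx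

theorem step {P : T.Obj} (hP : Nn P P = ⊥) {M' M : Submodule K (T.H P)} (hM' : Stab P M')
    (hM : Stab P M) (hlt : M' < M) : ∃ g ∈ T.S P P, g ∘ₗ g = g ∧ g ≠ 0 ∧ ∃ z ∈ M, g z = z ∧
      ∀ x ∈ T.S P P, x z ∈ M' → x ∘ₗ g = 0 := by
  obtain ⟨m, hm, hm'⟩ := SetLike.exists_of_lt hlt
  haveI := semis hP
  have hI : II hM' m ≠ ⊤ := by
    intro h
    have h1 : (1 : EE P) ∈ II hM' m := by
      rw [h]
      exact Submodule.mem_top
    exact hm' h1
  obtain ⟨g, h1, h2, h3⟩ := exists_idem (II hM' m) hI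
  have h1' : (g : Module.End K (T.H P)) ∘ₗ (g : Module.End K (T.H P)) =
      (g : Module.End K (T.H P)) := congrArg Subtype.val h1
  refine ⟨(g : Module.End K (T.H P)), g.2, h1', ?_, (g : Module.End K (T.H P)) m,
    hM _ g.2 _ hm, ?_, ?_⟩
  · intro h4
    exact h2 (Subtype.ext h4)
  · exact congrArg (fun f : T.H P →ₗ[K] T.H P => f m) h1'
  · intro x hx hxz
    have h4 := h3 ⟨x, hx⟩ hxz
    exact congrArg Subtype.val h4

/-- the span of the values at `z` -/
def Ez {P : T.Obj} (Q : T.Obj) (z : T.H P) : Submodule K (T.H Q) :=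
  (T.S P Q).map (LinearMap.applyₗ z)

theorem mem_Ez {P Q : T.Obj} {z : T.H P} {x : T.H Q} :
    x ∈ Ez Q z ↔ ∃ v ∈ T.S P Q, v z = x := Iff.rfl

theorem gn_apply {P Q : T.Obj} {M : Submodule K (T.H P)} (hM : Stab P M)
    {u : T.H Q →ₗ[K] T.H P} (hu : u ∈ T.S Q P) {x : T.H Q} (hx : x ∈ gn P Q M) : u x ∈ M := by
  unfold gn at hx
  induction hx using Submodule.span_induction with
  | mem x hx =>
    obtain ⟨v, hv, m, hm, rfl⟩ := hx
    exact hM _ (S_comp hv hu) m hm
  | zero => rw [map_zero]; exact Submodule.zero_mem _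
  | add x y _ _ hx hy => rw [map_add]; exact Submodule.add_mem _ hx hy
  | smul c x _ hx => rw [map_smul]; exact Submodule.smul_mem _ _ hx

theorem gn_sup {P Q : T.Obj} {M : Submodule K (T.H P)} (z : T.H P) :
    gn P Q (M ⊔ Ez P z) = gn P Q M ⊔ Ez Q z := by
  apply le_antisymm
  · unfold gn
    rw [Submodule.span_le]
    rintro _ ⟨v, hv, m, hm, rfl⟩
    obtain ⟨m', hm', y, hy, rfl⟩ := Submodule.mem_sup.1 hm
    obtain ⟨x, hx, rfl⟩ := mem_Ez.1 hy
    rw [map_add]
    refine Submodule.add_mem_sup (Submodule.subset_span ⟨v, hv, m', hm', rfl⟩) ?_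
    exact ⟨v ∘ₗ x, S_comp hx hv, rfl⟩
  · refine sup_le ?_ ?_
    · exact Submodule.span_mono fun _ ⟨v, hv, m, hm, e⟩ =>
        ⟨v, hv, m, Submodule.mem_sup_left hm, e⟩
    · intro x hx
      obtain ⟨v, hv, rfl⟩ := mem_Ez.1 hx
      refine Submodule.subset_span ⟨v, hv, z, Submodule.mem_sup_right ?_, rfl⟩
      exact ⟨LinearMap.id, S_id, rfl⟩

theorem gn_step {P Q : T.Obj} (hQ : Nn P Q = ⊥) {M' : Submodule K (T.H P)} (hM' : Stab P M')
    {g : T.H P →ₗ[K] T.H P} (hg : g ∈ T.S P P) {z : T.H P} (hz : g z = z)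
    (h : ∀ x ∈ T.S P P, x z ∈ M' → x ∘ₗ g = 0) :
    finrank K (gn P Q (M' ⊔ Ez P z)) = finrank K (gn P Q M') + a P g Q LinearMap.id := by
  -- the basic fact
  have key : ∀ v ∈ T.S P Q, v z ∈ gn P Q M' → v ∘ₗ g = 0 := by
    intro v hv hvz
    have h1 : v ∘ₗ g ∈ Nn P Q := by
      refine ⟨S_comp hg hv, fun u hu => ?_⟩
      have h2 : u ∘ₗ (v ∘ₗ g) = 0 := h _ (S_comp hv hu) (gn_apply hM' hu hvz)
      rw [h2, LinearMap.comp_zero, map_zero]
    rw [hQ] at h1
    exact (Submodule.mem_bot K).1 h1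
  have hz0 : ∀ v : T.H P →ₗ[K] T.H Q, v ∘ₗ g = 0 → v z = 0 := by
    intro v hv
    have h1 : (v ∘ₗ g) z = 0 := by
      rw [hv, LinearMap.zero_apply]
    rwa [LinearMap.comp_apply, hz] at h1
  have hdisj : gn P Q M' ⊓ Ez Q z = ⊥ := by
    rw [eq_bot_iff]
    rintro x ⟨hx1, hx2⟩
    obtain ⟨v, hv, rfl⟩ := mem_Ez.1 hx2
    exact (Submodule.mem_bot K).2 (hz0 v (key v hv hx1))
  rw [gn_sup]
  have h1 := Submodule.finrank_sup_add_finrank_inf_eq (gn P Q M') (Ez Q z)
  rw [hdisj, finrank_bot, add_zero] at h1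
  rw [h1]
  congr 1
  -- the dimension of the span of the values
  let φ : T.S P Q →ₗ[K] T.H Q := (LinearMap.applyₗ z) ∘ₗ (T.S P Q).subtype
  have hφr : LinearMap.range φ = Ez Q z := by
    unfold Ez
    rw [LinearMap.range_comp, Submodule.range_subtype]
  have hφk : LinearMap.ker φ = LinearMap.ker (F P Q g LinearMap.id).flip := by
    ext v
    rw [LinearMap.mem_ker, LinearMap.mem_ker]
    constructor
    · intro hv
      have hv' : (v : T.H P →ₗ[K] T.H Q) z = 0 := hv
      have h2 := key v v.2 (by rw [hv']; exact Submodule.zero_mem _)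
      apply LinearMap.ext
      intro u
      rw [LinearMap.flip_apply, F_apply, LinearMap.id_comp]
      have e1 : T.par P ∘ₗ g ∘ₗ (u : T.H Q →ₗ[K] T.H P) ∘ₗ (v : T.H P →ₗ[K] T.H Q) =
          g ∘ₗ (T.par P ∘ₗ (u : T.H Q →ₗ[K] T.H P) ∘ₗ (v : T.H P →ₗ[K] T.H Q)) := by
        rw [← LinearMap.comp_assoc, ← S_par hg]
        rfl
      rw [e1, LinearMap.trace_comp_comm']
      have e2 : (T.par P ∘ₗ (u : T.H Q →ₗ[K] T.H P) ∘ₗ (v : T.H P →ₗ[K] T.H Q)) ∘ₗ g =
          T.par P ∘ₗ (u : T.H Q →ₗ[K] T.H P) ∘ₗ ((v : T.H P →ₗ[K] T.H Q) ∘ₗ g) := rfl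
      rw [e2, h2, LinearMap.comp_zero, LinearMap.comp_zero, map_zero, LinearMap.zero_apply]
    · intro hv
      have h2 : (v : T.H P →ₗ[K] T.H Q) ∘ₗ g ∈ Nn P Q := by
        refine ⟨S_comp hg v.2, fun u hu => ?_⟩
        have h3 : (F P Q g LinearMap.id).flip v ⟨u, hu⟩ = 0 := by
          rw [hv, LinearMap.zero_apply]
        rw [LinearMap.flip_apply, F_apply, LinearMap.id_comp] at h3
        have e1 : T.par P ∘ₗ g ∘ₗ u ∘ₗ (v : T.H P →ₗ[K] T.H Q) =
            g ∘ₗ (T.par P ∘ₗ u ∘ₗ (v : T.H P →ₗ[K] T.H Q)) := by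
          rw [← LinearMap.comp_assoc, ← S_par hg]
          rfl
        change LinearMap.trace K (T.H P) (T.par P ∘ₗ g ∘ₗ u ∘ₗ (v : T.H P →ₗ[K] T.H Q)) = 0 at h3
        rw [e1, LinearMap.trace_comp_comm'] at h3
        exact h3
      rw [hQ] at h2
      exact hz0 v ((Submodule.mem_bot K).1 h2)
  have e3 := LinearMap.finrank_range_add_finrank_ker φ
  have e4 := LinearMap.finrank_range_add_finrank_ker (F P Q g LinearMap.id).flip
  rw [hφk, hφr] at e3
  have e5 : a P g Q LinearMap.id =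
      finrank K (LinearMap.range (F P Q g LinearMap.id).flip) := by
    rw [a, ← rk_flip]
    rfl
  rw [e5]
  omega

theorem dec_ind {P : T.Obj} (hP : Nn P P = ⊥) (M : Submodule K (T.H P)) (hM : Stab P M) :
    ∀ (n : ℕ) (M' : Submodule K (T.H P)), Stab P M' → M' ≤ M →
      finrank K M ≤ finrank K M' + n →
    ∃ (r : ℕ) (g : Fin r → (T.H P →ₗ[K] T.H P)) (z : Fin r → T.H P),
    (∀ i, g i ∈ T.S P P ∧ g i ∘ₗ g i = g i ∧ g i ≠ 0 ∧ z i ∈ M) ∧
    (∀ x ∈ M, ∃ m' ∈ M', ∃ y : Fin r → (T.H P →ₗ[K] T.H P), (∀ i, y i ∈ T.S P P) ∧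
      x = m' + ∑ i, y i (z i)) ∧
    ∀ Q : T.Obj, Nn P Q = ⊥ →
      finrank K (gn P Q M) = finrank K (gn P Q M') + ∑ i, a P (g i) Q LinearMap.id := by
  have triv : ∃ (r : ℕ) (g : Fin r → (T.H P →ₗ[K] T.H P)) (z : Fin r → T.H P),
      (∀ i, g i ∈ T.S P P ∧ g i ∘ₗ g i = g i ∧ g i ≠ 0 ∧ z i ∈ M) ∧
      (∀ x ∈ M, ∃ m' ∈ M, ∃ y : Fin r → (T.H P →ₗ[K] T.H P), (∀ i, y i ∈ T.S P P) ∧
        x = m' + ∑ i, y i (z i)) ∧
      ∀ Q : T.Obj, Nn P Q = ⊥ →
        finrank K (gn P Q M) = finrank K (gn P Q M) + ∑ i, a P (g i) Q LinearMap.id := by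
    refine ⟨0, fun i => i.elim0, fun i => i.elim0, fun i => i.elim0, fun x hx => ?_, fun Q _ => ?_⟩
    · refine ⟨x, hx, fun i => i.elim0, fun i => i.elim0, ?_⟩
      rw [Finset.univ_eq_empty, Finset.sum_empty, add_zero]
    · rw [Finset.univ_eq_empty, Finset.sum_empty, add_zero]
  intro n
  induction n with
  | zero =>
    intro M' hM' hle hfin
    have h1 : M' = M := Submodule.eq_of_le_of_finrank_le hle hfin
    rw [h1]
    exact triv
  | succ n ih =>
    intro M' hM' hle hfin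
    rcases hle.eq_or_lt with h1 | hlt
    · rw [h1]
      exact triv
    obtain ⟨g, hg, hgg, hg0, z, hzM, hgz, hx⟩ := step hP hM' hM hlt
    have hM₁ : Stab P (M' ⊔ Ez P z) := by
      intro b hb m hm
      obtain ⟨m', hm', y, hy, rfl⟩ := Submodule.mem_sup.1 hm
      obtain ⟨x, hx', rfl⟩ := mem_Ez.1 hy
      rw [map_add]
      exact Submodule.add_mem_sup (hM' b hb m' hm') ⟨b ∘ₗ x, S_comp hx' hb, rfl⟩
    have hle₁ : M' ⊔ Ez P z ≤ M := by
      refine sup_le hle ?_
      intro x hx'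
      obtain ⟨v, hv, rfl⟩ := mem_Ez.1 hx'
      exact hM v hv z hzM
    have hz₁ : z ∈ M' ⊔ Ez P z := Submodule.mem_sup_right ⟨LinearMap.id, S_id, rfl⟩
    have hlt₁ : M' < M' ⊔ Ez P z := by
      refine lt_of_le_of_ne le_sup_left ?_
      intro heq
      rw [← heq] at hz₁
      have h2 := hx LinearMap.id S_id hz₁
      rw [LinearMap.id_comp] at h2
      exact hg0 h2
    have hf := Submodule.finrank_lt_finrank_of_lt hlt₁
    obtain ⟨r, gs, zs, k1, k2, k3⟩ := ih (M' ⊔ Ez P z) hM₁ hle₁ (by omega)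
    refine ⟨r + 1, Fin.cons g gs, Fin.cons z zs, ?_, ?_, ?_⟩
    · intro i
      refine Fin.cases ?_ (fun j => ?_) i
      · exact ⟨hg, hgg, hg0, hzM⟩
      · exact k1 j
    · intro x hxM
      obtain ⟨m₁, hm₁, y, hy, rfl⟩ := k2 x hxM
      obtain ⟨m', hm', y₀, hy₀, rfl⟩ := Submodule.mem_sup.1 hm₁
      obtain ⟨x₀, hx₀, rfl⟩ := mem_Ez.1 hy₀
      refine ⟨m', hm', Fin.cons x₀ y, ?_, ?_⟩
      · intro i
        refine Fin.cases ?_ (fun j => ?_) i
        · exact hx₀
        · exact hy j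
      · rw [Fin.sum_univ_succ]
        simp only [Fin.cons_zero, Fin.cons_succ]
        rw [add_assoc]
    · intro Q hQ
      rw [k3 Q hQ, gn_step hQ hM' hg hgz hx, Fin.sum_univ_succ]
      simp only [Fin.cons_zero, Fin.cons_succ]
      rw [add_assoc]

theorem dec (T : NCTheory.{u, v, w} K) : SDec T := by
  intro P hP M' M hM' hM hle
  exact dec_ind hP M hM (finrank K M) M' hM' hle (by omega)

end Pool.Agent.Y447.ZI
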